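import Pool.Agent.R520.ArFin

set_option autoImplicit false

/-!
# Supersolvability of acyclic reorientation lattices

A digraph is given by its arc set `A : Set (V × V)`, `V` finite, where `(u, v) ∈ A` excludes `(v, u) ∈ A` (so there are
no loops and at most one arc between any two vertices).

* `Acyclic R`: the relation `R` has no directed cycle.
* `rev A S`: the arc relation of the digraph with the arcs in `S` reversed.
* `AR A`: the acyclic reorientation poset, all `S ⊆ A` with `rev A S` acyclic, ordered by inclusion.
* `Supersolvable L` (Stanley): there is a maximal chain `M` such that for every chain `K` the sublattice generated by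
  `M ∪ K` is distributive.
* `IsSupersolvableLattice P`: the poset `P` is a lattice, and this lattice is supersolvable.
* `PeoConsistent A X`: the subdigraph induced on `X` is peo-consistent.
* `underlying A`: the underlying simple graph.

We prove that `AR A` is a supersolvable lattice if and only if the underlying graph is a forest, which implies that the
digraph is peo-consistent; so a supersolvable acyclic reorientation lattice comes from a peo-consistent digraph. The
transitive tournament on three vertices is peo-consistent but its acyclic reorientation lattice, a hexagon, is not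
supersolvable.
-/

namespace Pool.Agent.Results.MP_af84f5_co.SupersolvableForest

open Pool.Agent.R520.ARL

/-- arcs of the transitive tournament on three vertices -/
def tri : Set (Fin 3 × Fin 3) := {p | p.1 < p.2}

theorem result :
    (∀ (V : Type) [Finite V] (A : Set (V × V)), (∀ u v, (u, v) ∈ A → (v, u) ∉ A) →
      Acyclic (fun u v => (u, v) ∈ A) →
      (IsSupersolvableLattice (AR A) → PeoConsistent A Set.univ) ∧
      (IsSupersolvableLattice (AR A) ↔ (underlying A).IsAcyclic)) ∧
    ((∀ u v, (u, v) ∈ tri → (v, u) ∉ tri) ∧ Acyclic (fun u v => (u, v) ∈ tri) ∧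
      PeoConsistent tri Set.univ ∧ ¬ IsSupersolvableLattice (AR tri)) := by
  have main : ∀ (V : Type) [Finite V] (A : Set (V × V)), (∀ u v, (u, v) ∈ A → (v, u) ∉ A) →
      Acyclic (fun u v => (u, v) ∈ A) →
      (IsSupersolvableLattice (AR A) → PeoConsistent A Set.univ) ∧
      (IsSupersolvableLattice (AR A) ↔ (underlying A).IsAcyclic) := by
    intro V _ A hA hac
    refine ⟨fun h => peo_of_no_bad hA (no_bad hA hac h) _, ?_, ?_⟩
    · intro h
      exact (isAcyclic_iff_leaf hA).1 (no_bad hA hac h)
    · intro h
      exact supersolvable_of_acyclic (acyclic_of_no_bad ((isAcyclic_iff_leaf hA).2 h))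
  have hasym : ∀ u v, (u, v) ∈ tri → (v, u) ∉ tri := by
    intro u v h h'
    exact lt_asymm (show u < v from h) (show v < u from h')
  have hac : Acyclic (fun u v => (u, v) ∈ tri) := by
    intro v hv
    have : ∀ a b, Relation.TransGen (fun u v => (u, v) ∈ tri) a b → a < b := by
      intro a b h
      induction h with
      | single h => exact h
      | tail _ h ih => exact ih.trans h
    exact lt_irrefl _ (this v v hv)
  refine ⟨main, hasym, hac, ?_, ?_⟩
  · have hadj : ∀ u w : Fin 3, u ≠ w → Adj tri u w := fun u w h => lt_or_gt_of_ne h
    refine PeoConsistent.step _ 0 trivial (Or.inl fun u _ h => absurd h (Fin.not_lt_zero u))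
      (fun u _ w _ hne _ _ => hadj u w hne) ?_
    refine PeoConsistent.step _ 1 ⟨trivial, by simp⟩ (Or.inl fun u hu h => ?_)
      (fun u _ w _ hne _ _ => hadj u w hne) ?_
    · have h1 : u < 1 := h
      have h2 : u ≠ 0 := fun h' => hu.2 h'
      omega
    · refine PeoConsistent.base _ ?_
      intro u hu w hw
      have hu1 : u ≠ 0 := fun h' => hu.1.2 h'
      have hu2 : u ≠ 1 := fun h' => hu.2 h'
      have hw1 : w ≠ 0 := fun h' => hw.1.2 h'
      have hw2 : w ≠ 1 := fun h' => hw.2 h'
      omega
  · intro h
    have hb := no_bad hasym hac h
    have hS : ({(0, 2)} : Set (Fin 3 × Fin 3)) ⊆ tri := by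
      intro p hp
      rw [Set.mem_singleton_iff] at hp
      subst hp
      show (0 : Fin 3) < 2
      decide
    have := acyclic_of_no_bad hb {(0, 2)} hS
    apply this 0
    have h01 : rev tri {(0, 2)} 0 1 := Or.inl ⟨show (0 : Fin 3) < 1 by decide, by simp⟩
    have h12 : rev tri {(0, 2)} 1 2 := Or.inl ⟨show (1 : Fin 3) < 2 by decide, by simp⟩
    have h20 : rev tri {(0, 2)} 2 0 := Or.inr ⟨show (0 : Fin 3) < 2 by decide, rfl⟩
    exact ((Relation.TransGen.single h01).tail h12).tail h20

end Pool.Agent.Results.MP_af84f5_co.SupersolvableForest
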